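import Mathlib
import Pool.Agent.Q278.LS.Fin

/-!
# A central-binomial Lucas sum modulo `p`

For every prime `p > 3` which is a nonzero square modulo `13`, the sum
`∑_{k ≤ (p-1)/2} C(2k,k)² U_k(11,1)` is divisible by `p`.

Proof. Modulo `p` the sum is `(H(16 α) - H(16 β)) / (α - β)`, where `α, β` are the roots of
`x² - 11 x + 1` and `H(x) = ∑ C((p-1)/2, k)² x ^ k` is the Hasse polynomial. The cubic modular
transformation `H(t (2 + t)³ / (1 + 2 t)³) = H(t³ (2 + t) / (1 + 2 t))` is proved modulo `p`: both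
sides, cleared of denominators, satisfy the same differential equation of order two over `F_p`, with
exponents `0, 0` at `t = 0` and `t = 1`; so their difference is divisible by `t ^ p (t - 1) ^ p`, and
its degree is at most `2 p - 2`. At `t = 3 + √13` the two arguments are `16 β` and `16 α`.
-/

set_option autoImplicit false

namespace Pool.Agent.Results.MP_c87117_nt.AllPrimes

open Finset

/-- The Lucas sequence `U_n(b, c)`. -/
def lucasU (b c : ℤ) : ℕ → ℤ
  | 0 => 0
  | 1 => 1
  | n + 2 => b * lucasU b c (n + 1) - c * lucasU b c n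

/-- **Main result.** For every prime `p > 3` with `p ≡ 1, 3, 4, 9, 10, 12 (mod 13)`,
`p` divides `∑_{k=0}^{(p-1)/2} C(2k,k)² U_k(11,1)`. -/
theorem result : ∀ p : ℕ, p.Prime → 3 < p → p % 13 ∈ ({1, 3, 4, 9, 10, 12} : Finset ℕ) →
    (p : ℤ) ∣ ∑ k ∈ range ((p - 1) / 2 + 1), (Nat.choose (2 * k) k : ℤ) ^ 2 * lucasU 11 1 k := by
  intro p hp h3 h
  have hU : ∀ k, lucasU 11 1 k = Pool.Agent.Q278.LS.U k := by
    intro k
    induction k using Nat.strong_induction_on with
    | _ k ih =>
      match k with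
      | 0 => rfl
      | 1 => rfl
      | n + 2 =>
        have h1 : lucasU 11 1 (n + 2) = 11 * lucasU 11 1 (n + 1) - 1 * lucasU 11 1 n := rfl
        have h2 : Pool.Agent.Q278.LS.U (n + 2) =
          11 * Pool.Agent.Q278.LS.U (n + 1) - Pool.Agent.Q278.LS.U n := rfl
        rw [h1, h2, ih (n + 1) (by omega), ih n (by omega), one_mul]
  simp only [hU]
  exact Pool.Agent.Q278.LS.main p hp h3 h

end Pool.Agent.Results.MP_c87117_nt.AllPrimes
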